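import Pool.Agent.W312.TP.Stm

/-!
Project TP (helper312), SATOK: the gadgets of a 3SAT formula are well formed.
-/

set_option autoImplicit false

namespace Pool.Agent.W179.TP

open Pool.Agent.NPC Pool.Agent.W312.TP

theorem lj_inj {m l j l' j' : ℕ} (hj : j < m) (hj' : j' < m) (h : l * m + j = l' * m + j') :
    l = l' ∧ j = j' := by
  rcases lt_trichotomy l l' with h1 | h1 | h1
  · have h2 : (l + 1) * m ≤ l' * m := Nat.mul_le_mul_right m h1
    rw [Nat.add_mul] at h2
    omega
  · subst h1
    exact ⟨rfl, by omega⟩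
  · have h2 : (l' + 1) * m ≤ l * m := Nat.mul_le_mul_right m h1
    rw [Nat.add_mul] at h2
    omega

theorem lj_lt {m l j N : ℕ} (hj : j < m) (hl : l < N) : l * m + j < N * m := by
  have h2 : (l + 1) * m ≤ N * m := Nat.mul_le_mul_right m hl
  rw [Nat.add_mul] at h2
  omega

/-- the elements of a gadget of the first kind -/
theorem mem_fst {n m l j x : ℕ}
    (h : x ∈ [if j = 0 then l else 2 * (n + 2 * n * m + (l * m + (j - 1))) + 1,
      2 * (n + (l * m + j)), 2 * (n + 2 * n * m + (l * m + j))]) :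
    (x = l ∧ j = 0) ∨ (∃ i, j = i + 1 ∧ x = 2 * (n + 2 * n * m + (l * m + i)) + 1) ∨
      x = 2 * (n + (l * m + j)) ∨ x = 2 * (n + 2 * n * m + (l * m + j)) := by
  simp only [List.mem_cons, List.not_mem_nil, or_false] at h
  rcases h with h | h | h
  · split_ifs at h with h1
    · exact Or.inl ⟨h, h1⟩
    · exact Or.inr (Or.inl ⟨j - 1, by omega, h⟩)
  · exact Or.inr (Or.inr (Or.inl h))
  · exact Or.inr (Or.inr (Or.inr h))

theorem fst_inj {n m l j l' j' x : ℕ} (hl : l < 2 * n) (hl' : l' < 2 * n) (hj : j < m)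
    (hj' : j' < m)
    (h : (x = l ∧ j = 0) ∨ (∃ i, j = i + 1 ∧ x = 2 * (n + 2 * n * m + (l * m + i)) + 1) ∨
      x = 2 * (n + (l * m + j)) ∨ x = 2 * (n + 2 * n * m + (l * m + j)))
    (h' : (x = l' ∧ j' = 0) ∨ (∃ i, j' = i + 1 ∧ x = 2 * (n + 2 * n * m + (l' * m + i)) + 1) ∨
      x = 2 * (n + (l' * m + j')) ∨ x = 2 * (n + 2 * n * m + (l' * m + j'))) :
    l = l' ∧ j = j' := by
  have b1 := lj_lt hj hl
  have b2 := lj_lt hj' hl'
  rcases h with ⟨h, h0⟩ | ⟨i, h0, h⟩ | h | h <;>
    rcases h' with ⟨h', h0'⟩ | ⟨i', h0', h'⟩ | h' | h'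
  all_goals first
    | omega
    | (have := lj_inj (m := m) (l := l) (j := j) (l' := l') (j' := j') hj hj' (by omega)
       exact this)

theorem lit_lt {n : ℕ} {x : Lit ℕ} (h : x.2 < n) : lit x < 2 * n := by
  unfold lit
  split_ifs <;> omega

theorem lit_div (x : Lit ℕ) : lit x / 2 = x.2 := by
  unfold lit
  split_ifs <;> omega

theorem lit_ne {x y : Lit ℕ} (h : x.2 ≠ y.2) : lit x ≠ lit y := by
  intro h1
  apply h
  rw [← lit_div x, ← lit_div y, h1]

theorem proof_SATOK : Pool.Agent.W312.TP.SATOK := by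
  intro φ hdist hbd
  obtain ⟨m, hm⟩ : ∃ m, m = φ.length := ⟨_, rfl⟩
  obtain ⟨n, hn⟩ : ∃ n, n = nv φ := ⟨_, rfl⟩
  have hnv : n = 3 * m := by rw [hn, hm]; rfl
  -- the elements
  have hel : elts (gOf φ) =
      ((List.range (2 * n)).flatMap fun l => (List.range m).flatMap fun j =>
        [if j = 0 then l else 2 * (n + 2 * n * m + (l * m + (j - 1))) + 1,
          2 * (n + (l * m + j)), 2 * (n + 2 * n * m + (l * m + j))]) ++
      φ.zipIdx.flatMap fun c => [2 * (n + (lit c.1.1 * m + c.2)) + 1,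
        2 * (n + (lit c.1.2.1 * m + c.2)) + 1, 2 * (n + (lit c.1.2.2 * m + c.2)) + 1] := by
    unfold elts gOf
    rw [List.flatMap_append, List.flatMap_assoc, List.flatMap_map, ← hn, ← hm]
    congr 1
    · congr 1
      funext l
      rw [List.flatMap_map]
      congr 1
      funext j
      simp only [hd, yv, wv, ← hn, ← hm]
    · congr 1
      funext c
      simp only [yv, ← hn, ← hm]
  have hz : ∀ c ∈ φ.zipIdx, c.1 ∈ φ ∧ c.2 < m := by
    intro c hc
    obtain ⟨h1, h2, h3⟩ := List.mem_zipIdx hc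
    refine ⟨h3 ▸ List.getElem_mem _, ?_⟩
    omega
  have hlit : ∀ c ∈ φ.zipIdx, (lit c.1.1 < 2 * n ∧ lit c.1.2.1 < 2 * n ∧ lit c.1.2.2 < 2 * n) ∧
      lit c.1.1 ≠ lit c.1.2.1 ∧ lit c.1.1 ≠ lit c.1.2.2 ∧ lit c.1.2.1 ≠ lit c.1.2.2 := by
    intro c hc
    obtain ⟨h1, h2, h3⟩ := hbd _ (hz c hc).1
    obtain ⟨g1, g2, g3⟩ := hdist _ (hz c hc).1
    rw [← hm, ← hnv] at h1 h2 h3
    exact ⟨⟨lit_lt h1, lit_lt h2, lit_lt h3⟩, lit_ne g1, lit_ne g2, lit_ne g3⟩
  -- the clause elements
  have hcl : ∀ c ∈ φ.zipIdx, ∀ x ∈ [2 * (n + (lit c.1.1 * m + c.2)) + 1,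
        2 * (n + (lit c.1.2.1 * m + c.2)) + 1, 2 * (n + (lit c.1.2.2 * m + c.2)) + 1],
      ∃ l < 2 * n, x = 2 * (n + (l * m + c.2)) + 1 := by
    intro c hc x hx
    obtain ⟨⟨h1, h2, h3⟩, -⟩ := hlit c hc
    simp only [List.mem_cons, List.not_mem_nil, or_false] at hx
    rcases hx with hx | hx | hx
    · exact ⟨_, h1, hx⟩
    · exact ⟨_, h2, hx⟩
    · exact ⟨_, h3, hx⟩
  refine ⟨?_, ?_⟩
  · rw [hel, List.nodup_append]
    refine ⟨?_, ?_, ?_⟩
    · rw [List.nodup_flatMap]
      refine ⟨fun l hl => ?_, ?_⟩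
      · rw [List.mem_range] at hl
        rw [List.nodup_flatMap]
        refine ⟨fun j hj => ?_, ?_⟩
        · rw [List.mem_range] at hj
          have b1 := lj_lt hj hl
          simp only [List.nodup_cons, List.mem_cons, List.not_mem_nil, or_false, not_false_eq_true,
            List.nodup_nil, and_true, not_or]
          refine ⟨⟨?_, ?_⟩, ?_⟩
          · split_ifs <;> omega
          · split_ifs <;> omega
          · have : 0 < n * m := by
              have : 0 < n := by omega
              have : 0 < m := by omega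
              positivity
            rw [Nat.mul_assoc] at *
            omega
        · refine List.pairwise_lt_range.imp_of_mem ?_
          intro j j' hj hj' hlt
          rw [List.mem_range] at hj hj'
          intro x hx hx'
          have := (fst_inj hl hl hj hj' (mem_fst hx) (mem_fst hx')).2
          omega
      · refine List.pairwise_lt_range.imp_of_mem ?_
        intro l l' hl hl' hlt
        rw [List.mem_range] at hl hl'
        intro x hx hx'
        rw [List.mem_flatMap] at hx hx'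
        obtain ⟨j, hj, hx⟩ := hx
        obtain ⟨j', hj', hx'⟩ := hx'
        rw [List.mem_range] at hj hj'
        have := (fst_inj hl hl' hj hj' (mem_fst hx) (mem_fst hx')).1
        omega
    · rw [List.nodup_flatMap]
      refine ⟨fun c hc => ?_, ?_⟩
      · obtain ⟨-, h1, h2, h3⟩ := hlit c hc
        have hcm := (hz c hc).2
        simp only [List.nodup_cons, List.mem_cons, List.not_mem_nil, or_false, not_false_eq_true,
          List.nodup_nil, and_true, not_or]
        refine ⟨⟨?_, ?_⟩, ?_⟩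
        · intro h
          exact h1 (lj_inj hcm hcm (by omega)).1
        · intro h
          exact h2 (lj_inj hcm hcm (by omega)).1
        · intro h
          exact h3 (lj_inj hcm hcm (by omega)).1
      · rw [List.pairwise_iff_getElem]
        intro i j hi hj hij
        intro x hx hx'
        obtain ⟨l, hl, e⟩ := hcl _ (List.getElem_mem hi) x hx
        obtain ⟨l', hl', e'⟩ := hcl _ (List.getElem_mem hj) x hx'
        have b1 := (hz _ (List.getElem_mem hi)).2
        have b2 := (hz _ (List.getElem_mem hj)).2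
        have := (lj_inj (l := l) (l' := l') b1 b2 (by omega)).2
        simp only [List.getElem_zipIdx, zero_add] at this
        omega
    · intro x hx y hy hxy
      subst hxy
      rw [List.mem_flatMap] at hx hy
      obtain ⟨l, hl, hx⟩ := hx
      rw [List.mem_flatMap] at hx
      obtain ⟨j, hj, hx⟩ := hx
      obtain ⟨c, hc, hy⟩ := hy
      rw [List.mem_range] at hl hj
      obtain ⟨l', hl', e'⟩ := hcl c hc x hy
      have b1 := lj_lt hj hl
      have b2 := lj_lt (hz c hc).2 hl'
      rcases mem_fst hx with ⟨h, h0⟩ | ⟨i, h0, h⟩ | h | h <;> omega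
  · intro e he
    have hp : pOf φ = n + 4 * n * m := by unfold pOf; rw [← hn, ← hm]
    rw [hp]
    have h4 : 4 * n * m = 2 * (2 * n * m) := by ring
    rw [h4]
    rw [hel, List.mem_append] at he
    rcases he with he | he
    · rw [List.mem_flatMap] at he
      obtain ⟨l, hl, hx⟩ := he
      rw [List.mem_flatMap] at hx
      obtain ⟨j, hj, hx⟩ := hx
      rw [List.mem_range] at hl hj
      have b1 := lj_lt hj hl
      rcases mem_fst hx with ⟨h, h0⟩ | ⟨i, h0, h⟩ | h | h <;> omega
    · rw [List.mem_flatMap] at he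
      obtain ⟨c, hc, hy⟩ := he
      obtain ⟨l', hl', e'⟩ := hcl c hc e hy
      have b2 := lj_lt (hz c hc).2 hl'
      omega

end Pool.Agent.W179.TP
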